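import Mathlib
import Pool.Agent.Helper635.LLL

set_option autoImplicit false

open Finset Pool.Agent.Helper635.LLL

namespace Pool.Agent.U394.Halving

/-- If the event `P` fixes the coordinates in `D`, it has at most `2 ^ (M - |D|)` outcomes. -/
lemma cnt_fixed {T : Type} [Fintype T] [DecidableEq T] (P : (T → Bool) → Prop) (D : Finset T)
    (a : T → Bool) (h : ∀ ω, P ω → ∀ t ∈ D, ω t = a t) :
    cnt P * 2 ^ D.card ≤ Fintype.card (T → Bool) := by
  classical
  have h1 : cnt P * 2 ^ D.card = ((ev P) ×ˢ (univ : Finset (D → Bool))).card := by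
    rw [card_product, cnt, card_univ, Fintype.card_fun, Fintype.card_bool, Fintype.card_coe]
  rw [h1, ← card_univ]
  refine card_le_card_of_injOn
    (fun w : (T → Bool) × (D → Bool) => fun t => if ht : t ∈ D then w.2 ⟨t, ht⟩ else w.1 t)
    (fun _ _ => mem_coe.2 (mem_univ _)) ?_
  rintro ⟨w, x⟩ hw ⟨w', x'⟩ hw' heq
  simp only [coe_product, Set.mem_prod, mem_coe, mem_ev] at hw hw'
  have hx : x = x' := by
    funext t
    have := congrFun heq t.1
    simpa using this
  have hww : w = w' := by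
    funext t
    by_cases ht : t ∈ D
    · rw [h w hw.1 t ht, h w' hw'.1 t ht]
    · have := congrFun heq t
      simpa [ht] using this
  rw [hx, hww]

variable (M : ℕ) (idx : ℕ → ℕ)

/-- the vertex `v` is red in the pair colouring `ω` -/
def red (ω : Fin M → Bool) (v : ℕ) : Prop :=
  ∃ h : idx v / 2 < M, (idx v % 2 = 0 ↔ ω ⟨idx v / 2, h⟩ = true)

/-- the pairs met by `A` -/
def supp (A : Finset ℕ) : Finset (Fin M) := univ.filter (fun t => ∃ v ∈ A, idx v / 2 = t.1)

/-- the bad event that `A` is monochromatic -/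
def bad (A : Finset ℕ) (ω : Fin M → Bool) : Prop :=
  (∀ v ∈ A, red M idx ω v) ∨ (∀ v ∈ A, ¬ red M idx ω v)

variable {M idx}

lemma red_congr {A : Finset ℕ} {ω ω' : Fin M → Bool} (h : ∀ t ∈ supp M idx A, ω t = ω' t)
    {v : ℕ} (hv : v ∈ A) (hr : red M idx ω v) : red M idx ω' v := by
  obtain ⟨h1, h2⟩ := hr
  refine ⟨h1, ?_⟩
  rw [← h ⟨idx v / 2, h1⟩ (mem_filter.2 ⟨mem_univ _, v, hv, rfl⟩)]
  exact h2

lemma dep (A : Finset ℕ) :
    Pool.Agent.Helper635.LLL.DependsOn (bad M idx A) (supp M idx A) := by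
  intro ω ω' h hb
  have h' : ∀ t ∈ supp M idx A, ω' t = ω t := fun t ht => (h t ht).symm
  rcases hb with hb | hb
  · left
    exact fun v hv => red_congr h hv (hb v hv)
  · right
    exact fun v hv hr => hb v hv (red_congr h' hv hr)

lemma supp_image (A : Finset ℕ) :
    (supp M idx A).image Fin.val = (A.filter (fun v => idx v / 2 < M)).image (fun v => idx v / 2) := by
  ext k
  simp only [supp, mem_image, mem_filter, mem_univ, true_and]
  constructor
  · rintro ⟨t, ⟨v, hv, h⟩, rfl⟩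
    exact ⟨v, ⟨hv, by rw [h]; exact t.2⟩, h⟩
  · rintro ⟨v, ⟨hv, h1⟩, rfl⟩
    exact ⟨⟨idx v / 2, h1⟩, ⟨v, hv, rfl⟩, rfl⟩

lemma card_supp (A : Finset ℕ)
    (hinj : ∀ v ∈ A, ∀ w ∈ A, idx v / 2 < M → idx v / 2 = idx w / 2 → v = w) :
    (supp M idx A).card = (A.filter (fun v => idx v / 2 < M)).card := by
  rw [← card_image_of_injective (supp M idx A) Fin.val_injective, supp_image]
  refine card_image_of_injOn ?_
  intro v hv w hw h
  simp only [coe_filter, Set.mem_ofPred_eq] at hv hw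
  exact hinj v hv.1 w hw.1 hv.2 h

/-- two vertices of one pair have different colours -/
lemma red_pair {V : Finset ℕ} (hidx : Set.InjOn idx V) {ω : Fin M → Bool} {v w : ℕ} (hv : v ∈ V)
    (hw : w ∈ V) (hM : idx v / 2 < M) (h : idx v / 2 = idx w / 2) (hne : v ≠ w) :
    red M idx ω v ↔ ¬ red M idx ω w := by
  have h1 : idx v ≠ idx w := fun h => hne (hidx hv hw h)
  have h2 : (idx v % 2 = 0) ↔ ¬ (idx w % 2 = 0) := by omega
  have hM' : idx w / 2 < M := h ▸ hM
  have h3 : (⟨idx v / 2, hM⟩ : Fin M) = ⟨idx w / 2, hM'⟩ := Fin.ext h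
  have e1 : red M idx ω v ↔ (idx v % 2 = 0 ↔ ω ⟨idx v / 2, hM⟩ = true) :=
    ⟨fun ⟨_, h⟩ => h, fun h => ⟨hM, h⟩⟩
  have e2 : red M idx ω w ↔ (idx w % 2 = 0 ↔ ω ⟨idx w / 2, hM'⟩ = true) :=
    ⟨fun ⟨_, h⟩ => h, fun h => ⟨hM', h⟩⟩
  rw [e1, e2, h3, h2]
  tauto

lemma cnt_red {V A : Finset ℕ} (hidx : Set.InjOn idx V) (hA : A ⊆ V) (s : Prop) :
    cnt (fun ω : Fin M → Bool => ∀ v ∈ A, (red M idx ω v ↔ s)) *
      2 ^ (A.filter (fun v => idx v / 2 < M)).card ≤ 2 ^ M := by
  classical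
  by_cases he : ∃ ω₀ : Fin M → Bool, ∀ v ∈ A, (red M idx ω₀ v ↔ s)
  · obtain ⟨ω₀, h0⟩ := he
    have hcard := card_supp (M := M) (idx := idx) A (by
      intro v hv w hw hM h
      by_contra hne
      have := red_pair hidx (hA hv) (hA hw) hM h hne (ω := ω₀)
      rw [h0 v hv, h0 w hw] at this
      tauto)
    rw [← hcard]
    have := cnt_fixed (fun ω : Fin M → Bool => ∀ v ∈ A, (red M idx ω v ↔ s)) (supp M idx A) ω₀ ?_
    · simpa using this
    · intro ω h t ht
      obtain ⟨-, v, hv, hvt⟩ := mem_filter.1 ht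
      have hM : idx v / 2 < M := hvt ▸ t.2
      have ht' : t = ⟨idx v / 2, hM⟩ := Fin.ext hvt.symm
      have e1 : ∀ ω : Fin M → Bool, red M idx ω v ↔ (idx v % 2 = 0 ↔ ω ⟨idx v / 2, hM⟩ = true) :=
        fun ω => ⟨fun ⟨_, h⟩ => h, fun h => ⟨hM, h⟩⟩
      have a1 := h v hv
      have a2 := h0 v hv
      rw [e1] at a1 a2
      rw [ht']
      rw [Bool.eq_iff_iff]
      tauto
  · have : cnt (fun ω : Fin M → Bool => ∀ v ∈ A, (red M idx ω v ↔ s)) = 0 := by
      rw [cnt, card_eq_zero, eq_empty_iff_forall_notMem]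
      intro ω hω
      rw [mem_ev] at hω
      exact he ⟨ω, hω⟩
    rw [this, zero_mul]
    exact Nat.zero_le _

lemma cnt_bad {V A : Finset ℕ} (hidx : Set.InjOn idx V) (hA : A ⊆ V)
    (hlt : ∀ v ∈ V, idx v ≤ 2 * M) {n : ℕ} (hcard : A.card = n) :
    cnt (bad M idx A) * 2 ^ n ≤ 3 * 2 ^ M := by
  classical
  have hsub : cnt (bad M idx A) ≤
      cnt (fun ω : Fin M → Bool => ∀ v ∈ A, (red M idx ω v ↔ True)) +
      cnt (fun ω : Fin M → Bool => ∀ v ∈ A, (red M idx ω v ↔ False)) := by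
    refine le_trans (card_le_card ?_) (card_union_le _ _)
    intro ω hω
    rw [mem_ev] at hω
    rw [mem_union, mem_ev, mem_ev]
    rcases hω with h | h
    · left
      intro v hv
      simpa using h v hv
    · right
      intro v hv
      simpa using h v hv
  -- at most one vertex is unpaired
  have hrest : (A.filter (fun v => ¬ idx v / 2 < M)).card ≤ 1 := by
    rw [card_le_one]
    intro a ha b hb
    rw [mem_filter] at ha hb
    have h1 := hlt a (hA ha.1)
    have h2 := hlt b (hA hb.1)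
    exact hidx (hA ha.1) (hA hb.1) (by omega)
  have hsum := card_filter_add_card_filter_not (s := A) (fun v => idx v / 2 < M)
  have hk : n ≤ (A.filter (fun v => idx v / 2 < M)).card + 1 := by omega
  have hF := cnt_red (M := M) hidx hA False
  have hF' : cnt (fun ω : Fin M → Bool => ∀ v ∈ A, (red M idx ω v ↔ False)) * 2 ^ n ≤ 2 * 2 ^ M := by
    calc _ ≤ cnt (fun ω : Fin M → Bool => ∀ v ∈ A, (red M idx ω v ↔ False)) *
          2 ^ ((A.filter (fun v => idx v / 2 < M)).card + 1) :=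
          Nat.mul_le_mul_left _ (Nat.pow_le_pow_right (by norm_num) hk)
      _ = 2 * (cnt (fun ω : Fin M → Bool => ∀ v ∈ A, (red M idx ω v ↔ False)) *
          2 ^ (A.filter (fun v => idx v / 2 < M)).card) := by rw [pow_succ]; ring
      _ ≤ _ := Nat.mul_le_mul_left _ hF
  have hT' : cnt (fun ω : Fin M → Bool => ∀ v ∈ A, (red M idx ω v ↔ True)) * 2 ^ n ≤ 2 ^ M := by
    by_cases hall : ∀ v ∈ A, idx v / 2 < M
    · have hT := cnt_red (M := M) hidx hA True
      rw [filter_true_of_mem hall, hcard] at hT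
      exact hT
    · push Not at hall
      obtain ⟨v, hv, hvM⟩ := hall
      have : cnt (fun ω : Fin M → Bool => ∀ v ∈ A, (red M idx ω v ↔ True)) = 0 := by
        rw [cnt, card_eq_zero, eq_empty_iff_forall_notMem]
        intro ω hω
        rw [mem_ev] at hω
        obtain ⟨h1, -⟩ := (hω v hv).2 trivial
        omega
      rw [this, zero_mul]
      exact Nat.zero_le _
  calc cnt (bad M idx A) * 2 ^ n ≤ _ := Nat.mul_le_mul_right _ hsub
    _ ≤ 3 * 2 ^ M := by rw [add_mul]; omega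

/-- number of dependent edges -/
lemma card_dep {F : Finset (Finset ℕ)} {c : ℝ} {n : ℕ}
    (hidx : Set.InjOn idx (F.biUnion id : Set ℕ))
    (hdeg : ∀ v : ℕ, ((F.filter (fun A => v ∈ A)).card : ℝ) ≤ c ^ n) (hc : 0 ≤ c) {A : Finset ℕ}
    (hA : A.card = n) [DecidablePred fun B => ¬ Disjoint (supp M idx A) (supp M idx B)] :
    ((F.filter (fun B => ¬ Disjoint (supp M idx A) (supp M idx B))).card : ℝ) ≤ 2 * n * c ^ n := by
  classical
  set V := F.biUnion id with hV
  have hsub : F.filter (fun B => ¬ Disjoint (supp M idx A) (supp M idx B)) ⊆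
      A.biUnion (fun v => (V.filter (fun w => idx w / 2 = idx v / 2)).biUnion
        (fun w => F.filter (fun B => w ∈ B))) := by
    intro B hB
    rw [mem_filter] at hB
    obtain ⟨hBF, hd⟩ := hB
    rw [not_disjoint_iff] at hd
    obtain ⟨t, h1, h2⟩ := hd
    obtain ⟨-, v, hv, hvt⟩ := mem_filter.1 h1
    obtain ⟨-, w, hw, hwt⟩ := mem_filter.1 h2
    simp only [mem_biUnion, mem_filter]
    exact ⟨v, hv, w, ⟨mem_biUnion.2 ⟨B, hBF, hw⟩, by rw [hvt, hwt]⟩, hBF, hw⟩
  have h2 : ∀ v, (V.filter (fun w => idx w / 2 = idx v / 2)).card ≤ 2 := by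
    intro v
    have : (V.filter (fun w => idx w / 2 = idx v / 2)).card ≤
        ({2 * (idx v / 2), 2 * (idx v / 2) + 1} : Finset ℕ).card := by
      refine card_le_card_of_injOn idx ?_ ?_
      · intro w hw
        simp only [coe_filter, Set.mem_ofPred_eq] at hw
        simp only [coe_insert, coe_singleton, Set.mem_insert_iff, Set.mem_singleton_iff]
        omega
      · exact hidx.mono (by
          intro w hw
          simp only [coe_filter, Set.mem_ofPred_eq] at hw
          exact hw.1)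
    exact le_trans this card_le_two
  have hstep : ((F.filter (fun B => ¬ Disjoint (supp M idx A) (supp M idx B))).card : ℝ) ≤
      ∑ v ∈ A, ∑ w ∈ V.filter (fun w => idx w / 2 = idx v / 2),
        ((F.filter (fun B => w ∈ B)).card : ℝ) := by
    have h3 := card_le_card hsub
    have h4 : (A.biUnion (fun v => (V.filter (fun w => idx w / 2 = idx v / 2)).biUnion
        (fun w => F.filter (fun B => w ∈ B)))).card ≤
        ∑ v ∈ A, ∑ w ∈ V.filter (fun w => idx w / 2 = idx v / 2),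
        (F.filter (fun B => w ∈ B)).card :=
      le_trans card_biUnion_le (sum_le_sum fun v _ => card_biUnion_le)
    exact_mod_cast le_trans h3 h4
  refine le_trans hstep ?_
  calc (∑ v ∈ A, ∑ w ∈ V.filter (fun w => idx w / 2 = idx v / 2),
        ((F.filter (fun B => w ∈ B)).card : ℝ))
      ≤ ∑ v ∈ A, ∑ w ∈ V.filter (fun w => idx w / 2 = idx v / 2), c ^ n :=
        sum_le_sum fun v _ => sum_le_sum fun w _ => hdeg w
    _ ≤ ∑ v ∈ A, 2 * c ^ n := by
        refine sum_le_sum fun v _ => ?_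
        rw [sum_const, nsmul_eq_mul]
        exact mul_le_mul_of_nonneg_right (by exact_mod_cast h2 v) (by positivity)
    _ = 2 * n * c ^ n := by
        rw [sum_const, nsmul_eq_mul, hA]; ring

/-- the red class has exactly `M` elements -/
lemma card_red {V : Finset ℕ} (hidx : Set.InjOn idx V)
    (himg : V.image idx = range V.card) (hM : M = V.card / 2) (ω : Fin M → Bool)
    [DecidablePred (red M idx ω)] : (V.filter (red M idx ω)).card = M := by
  classical
  have h1 : ((V.filter (red M idx ω)).image idx).card = (V.filter (red M idx ω)).card :=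
    card_image_of_injOn (hidx.mono (by
      intro w hw
      simp only [coe_filter, Set.mem_ofPred_eq] at hw
      exact hw.1))
  have h2 : (V.filter (red M idx ω)).image idx =
      (univ : Finset (Fin M)).image (fun t => 2 * t.1 + if ω t = true then 0 else 1) := by
    ext k
    simp only [mem_image, mem_filter, mem_univ, true_and]
    constructor
    · rintro ⟨v, ⟨hv, hlt, hr⟩, rfl⟩
      refine ⟨⟨idx v / 2, hlt⟩, ?_⟩
      by_cases h : ω ⟨idx v / 2, hlt⟩ = true
      · have := hr.2 h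
        simp only [h, if_true]
        omega
      · have : ¬ idx v % 2 = 0 := fun h' => h (hr.1 h')
        simp only [h]
        simp only [Bool.false_eq_true, if_false]
        omega
    · rintro ⟨t, rfl⟩
      have ht := t.2
      have hmem : 2 * t.1 + (if ω t = true then 0 else 1) ∈ range V.card := by
        rw [mem_range]
        split_ifs <;> omega
      rw [← himg, mem_image] at hmem
      obtain ⟨v, hv, hveq⟩ := hmem
      have hdiv : idx v / 2 = t.1 := by
        rw [hveq]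
        split_ifs <;> omega
      refine ⟨v, ⟨hv, by rw [hdiv]; exact ht, ?_⟩, hveq⟩
      have : (⟨idx v / 2, by rw [hdiv]; exact ht⟩ : Fin M) = t := Fin.ext hdiv
      rw [this, hveq]
      split_ifs with h
      · simp [h]
      · simp only [h]
        constructor
        · intro h'; omega
        · intro h'; simp at h'
  rw [← h1, h2, card_image_of_injective, card_univ, Fintype.card_fin]
  intro s t h
  apply Fin.ext
  simp only at h
  split_ifs at h <;> omega

/-- an indexing of a finite set of natural numbers -/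
lemma exists_idx (V : Finset ℕ) : ∃ idx : ℕ → ℕ, Set.InjOn idx V ∧ V.image idx = range V.card := by
  classical
  let e := V.equivFin
  refine ⟨fun v => if h : v ∈ V then (e ⟨v, h⟩ : ℕ) else 0, ?_, ?_⟩
  · intro v hv w hw h
    have hv' : v ∈ V := hv
    have hw' : w ∈ V := hw
    simp only [hv', hw', dif_pos] at h
    have := e.injective (Fin.ext h)
    exact congrArg Subtype.val this
  · ext k
    simp only [mem_image, mem_range]
    constructor
    · rintro ⟨v, hv, rfl⟩
      simp only [hv, dif_pos]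
      exact (e ⟨v, hv⟩).2
    · intro hk
      refine ⟨(e.symm ⟨k, hk⟩ : V), (e.symm ⟨k, hk⟩).2, ?_⟩
      simp

lemma exists_n0 {c : ℝ} (hc1 : 1 < c) (hc2 : c < 2) :
    ∃ n₀ : ℕ, ∀ n : ℕ, n₀ ≤ n → 24 * (n : ℝ) * (c / 2) ^ n ≤ 1 := by
  have h := tendsto_self_mul_const_pow_of_lt_one (r := c / 2) (by linarith) (by linarith)
  have h' := (h.const_mul 24)
  rw [mul_zero] at h'
  have := h'.eventually (ge_mem_nhds (show (0 : ℝ) < 1 by norm_num))
  obtain ⟨n₀, hn₀⟩ := Filter.eventually_atTop.1 this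
  exact ⟨n₀, fun n hn => by have := hn₀ n hn; linarith⟩

/-- the local lemma in the form needed -/
lemma exists_good (F : Finset (Finset ℕ)) (M : ℕ) (idx : ℕ → ℕ) (p D : ℝ) (hp0 : 0 ≤ p)
    (hD1 : 1 ≤ D)
    (hp : ∀ A ∈ F, (cnt (bad M idx A) : ℝ) ≤ p * 2 ^ M)
    (hd : ∀ A ∈ F, ∀ inst : DecidablePred fun B => ¬ Disjoint (supp M idx A) (supp M idx B),
      ((F.filter (fun B => ¬ Disjoint (supp M idx A) (supp M idx B))).card : ℝ) ≤ D)
    (h4 : 4 * p * D ≤ 1) : ∃ ω : Fin M → Bool, ∀ A ∈ F, ¬ bad M idx A ω := by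
  have hcard : ∀ inst : Fintype (Fin M → Bool), ((@Fintype.card _ inst : ℕ) : ℝ) = 2 ^ M := by
    intro inst
    rw [← Nat.card_eq_fintype_card, Nat.card_fun]
    simp
  have h1 : ∀ A ∈ F, Pool.Agent.Helper635.LLL.DependsOn (bad M idx A) (supp M idx A) :=
    fun A _ => dep A
  have hfl : ((⌊D⌋₊ : ℕ) : ℝ) ≤ D := Nat.floor_le (by linarith)
  have h4' : 4 * p * ((⌊D⌋₊ : ℕ) : ℝ) ≤ 1 :=
    le_trans (mul_le_mul_of_nonneg_left hfl (by positivity)) h4
  have h5 : 1 ≤ ⌊D⌋₊ := Nat.le_floor (by exact_mod_cast hD1)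
  refine lll F (bad M idx) (supp M idx) h1 p ⌊D⌋₊ hp0 ?_ ?_ h4' h5 ?_
  · intro A hA
    rw [hcard]
    exact hp A hA
  · intro A hA
    exact Nat.le_floor (hd A hA _)
  · have h6 : ∀ inst : Fintype (Fin M → Bool), 0 < @Fintype.card _ inst := by
      intro inst
      exact Fintype.card_pos_iff.2 ⟨fun _ => true⟩
    exact h6 _

theorem main (c : ℝ) (hc1 : 1 < c) (hc2 : c < 2) :
      ∃ n₀ : ℕ, ∀ n : ℕ, n₀ ≤ n →
        ∀ F : Finset (Finset ℕ),
          (∀ A ∈ F, A.card = n) →
          (∀ v : ℕ, ((F.filter (fun A => v ∈ A)).card : ℝ) ≤ c ^ n) →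
          ∃ R : Finset ℕ, R ⊆ F.biUnion id ∧
            R.card = (F.biUnion id).card / 2 ∧
            ∀ A ∈ F, (A ∩ R).Nonempty ∧ ¬ A ⊆ R := by
  classical
  obtain ⟨n₀, hn₀⟩ := exists_n0 hc1 hc2
  refine ⟨max n₀ 1, fun n hn F hF hdeg => ?_⟩
  have hn1 : 1 ≤ n := le_trans (le_max_right _ _) hn
  have hsmall := hn₀ n (le_trans (le_max_left _ _) hn)
  obtain ⟨idx, hidx, himg⟩ := exists_idx (F.biUnion id)
  obtain ⟨M, hM⟩ : ∃ M, M = (F.biUnion id).card / 2 := ⟨_, rfl⟩
  have hlt : ∀ v ∈ F.biUnion id, idx v ≤ 2 * M := by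
    intro v hv
    have : idx v ∈ range (F.biUnion id).card := by rw [← himg]; exact mem_image_of_mem _ hv
    rw [mem_range] at this
    omega
  have hAV : ∀ A ∈ F, A ⊆ F.biUnion id := fun A hA v hv => mem_biUnion.2 ⟨A, hA, hv⟩
  have hc0 : (0 : ℝ) ≤ c := by linarith
  have hcn : (1 : ℝ) ≤ c ^ n := one_le_pow₀ hc1.le
  have hn1' : (1 : ℝ) ≤ (n : ℝ) := by exact_mod_cast hn1
  have hDge : (1 : ℝ) ≤ 2 * n * c ^ n := by nlinarith
  obtain ⟨ω, hω⟩ := exists_good F M idx (3 / 2 ^ n) (2 * n * c ^ n) (by positivity) hDge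
    (by
      intro A hA
      have := cnt_bad hidx (hAV A hA) hlt (hF A hA)
      have h2 : (cnt (bad M idx A) : ℝ) * 2 ^ n ≤ 3 * 2 ^ M := by exact_mod_cast this
      rw [div_mul_eq_mul_div, le_div_iff₀ (by positivity)]
      exact h2)
    (fun A hA _ => card_dep hidx hdeg hc0 (hF A hA))
    (by
      have h2n : (0 : ℝ) < 2 ^ n := by positivity
      calc 4 * (3 / 2 ^ n) * (2 * n * c ^ n) = 24 * (n : ℝ) * (c / 2) ^ n := by
            rw [div_pow]; field_simp; ring
        _ ≤ 1 := hsmall)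
  refine ⟨(F.biUnion id).filter (red M idx ω), filter_subset _ _, ?_, fun A hA => ?_⟩
  · rw [card_red hidx himg hM ω, hM]
  have hb := hω A hA
  simp only [bad, not_or, not_forall, not_not] at hb
  obtain ⟨⟨v, hv, hvr⟩, ⟨w, hw, hwr⟩⟩ := hb
  refine ⟨⟨w, mem_inter.2 ⟨hw, mem_filter.2 ⟨hAV A hA hw, hwr⟩⟩⟩, fun hsub => ?_⟩
  exact hvr (mem_filter.1 (hsub hv)).2

end Pool.Agent.U394.Halving
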